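import Pool.Agent.H64.FT.Main
import Pool.Agent.H16.FT.KeyFour

/-!
# The decomposition of the cohomology of the product of a surface and a curve
-/

set_option autoImplicit false

open Matrix

namespace Pool.Agent.H90.FT

open Pool.Agent.H64.CC Pool.Agent.H64.FT

variable {K : Type} [Field K] [CharZero K] (W : Weil K)

/-- the sums of compositions `X → S → X` of correspondences, of degree `0`, with varieties `S` with
the property `P` -/
def Thru {n : ℕ} (P : W.Var n → Prop) (X : W.Var n) : Submodule ℚ (W.Hom X X) :=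
  Submodule.span ℚ {f | ∃ (S : W.Var n) (r : ℤ), P S ∧
    ∃ h ∈ W.cyc X S r, ∃ g ∈ W.cyc S X (-r), f = W.comp g h}

/-- The Künneth formula and Poincaré duality for `A × S`: `cl f` is the class on `A × S` of a linear
map `f` from `H(A)` to `H(S)`; and the transposition on `A × S` -/
structure Graph (D : Duality W) {m : ℕ} (A S : W.Var m) where
  cl : W.Hom A S → W.H (W.prod A S)
  lin : IsLinearMap K cl
  inj : ∀ f, cl f = 0 → f = 0
  surj : ∀ y, ∃ f, cl f = y
  ext_cl : ∀ (a : W.Hom A A) (b : W.Hom S S), W.HasDeg 0 a → W.HasDeg 0 b → ∀ f : W.Hom A S,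
    W.ap (W.ext a b) (cl f) = cl (W.comp (W.comp b f) (D.t A a))
  t_ext : ∀ (a : W.Hom A A) (b : W.Hom S S), W.HasDeg 0 a → W.HasDeg 0 b →
    D.t (W.prod A S) (W.ext a b) = W.ext (D.t A a) (D.t S b)

variable {W}

/-! ## external products -/

theorem ext_mul {n : ℕ} {X X' X'' Y Y' Y'' : W.Var n} (f : W.Hom X X') (f' : W.Hom X' X'')
    (g : W.Hom Y Y') (g' : W.Hom Y' Y'') :
    W.ext f' g' * W.ext f g = W.ext (f' * f) (g' * g) := by
  ext b a
  unfold Weil.ext
  rw [Matrix.mul_apply]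
  simp only [Matrix.of_apply]
  rw [← Equiv.sum_comp (W.pr X' Y'), Fintype.sum_prod_type, Matrix.mul_apply, Matrix.mul_apply,
    Finset.sum_mul_sum]
  refine Finset.sum_congr rfl fun i _ => Finset.sum_congr rfl fun j _ => ?_
  rw [Equiv.symm_apply_apply]
  ring

theorem ext_add_left {n : ℕ} {X X' Y Y' : W.Var n} (f f' : W.Hom X X') (g : W.Hom Y Y') :
    W.ext (f + f') g = W.ext f g + W.ext f' g := by
  ext b a
  unfold Weil.ext
  simp only [Matrix.of_apply, Matrix.add_apply]
  ring

theorem ext_add_right {n : ℕ} {X X' Y Y' : W.Var n} (f : W.Hom X X') (g g' : W.Hom Y Y') :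
    W.ext f (g + g') = W.ext f g + W.ext f g' := by
  ext b a
  unfold Weil.ext
  simp only [Matrix.of_apply, Matrix.add_apply]
  ring

theorem ext_smul_left {n : ℕ} {X X' Y Y' : W.Var n} (q : ℚ) (f : W.Hom X X') (g : W.Hom Y Y') :
    W.ext (q • f) g = q • W.ext f g := by
  ext b a
  unfold Weil.ext
  simp only [Matrix.of_apply, Matrix.smul_apply, Algebra.smul_mul_assoc]

theorem ext_smul_right {n : ℕ} {X X' Y Y' : W.Var n} (q : ℚ) (f : W.Hom X X') (g : W.Hom Y Y') :
    W.ext f (q • g) = q • W.ext f g := by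
  ext b a
  unfold Weil.ext
  simp only [Matrix.of_apply, Matrix.smul_apply, Algebra.mul_smul_comm]

theorem ext_zero_left {n : ℕ} {X X' Y Y' : W.Var n} (g : W.Hom Y Y') :
    W.ext (0 : W.Hom X X') g = 0 := by
  ext b a
  unfold Weil.ext
  simp

theorem ext_zero_right {n : ℕ} {X X' Y Y' : W.Var n} (f : W.Hom X X') :
    W.ext f (0 : W.Hom Y Y') = 0 := by
  ext b a
  unfold Weil.ext
  simp

theorem ext_one {n : ℕ} (X Y : W.Var n) : W.ext (W.id X) (W.id Y) = W.id (W.prod X Y) := by
  ext b a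
  unfold Weil.ext Weil.id
  simp only [Matrix.of_apply]
  by_cases h : b = a
  · subst h
    simp
  · rw [Matrix.one_apply_ne h]
    by_cases h1 : ((W.pr X Y).symm b).1 = ((W.pr X Y).symm a).1
    · have h2 : ((W.pr X Y).symm b).2 ≠ ((W.pr X Y).symm a).2 := by
        intro h2
        exact h ((W.pr X Y).symm.injective (Prod.ext h1 h2))
      rw [Matrix.one_apply_ne h2, mul_zero]
    · rw [Matrix.one_apply_ne h1, zero_mul]

/-- external products of degree `0` -/
theorem ext_deg (hP : W.Products) {n : ℕ} {X X' Y Y' : W.Var n} {f : W.Hom X X'} {g : W.Hom Y Y'}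
    (hf : W.HasDeg 0 f) (hg : W.HasDeg 0 g) : W.HasDeg 0 (W.ext f g) := by
  intro b a h
  unfold Weil.ext at h
  simp only [Matrix.of_apply] at h
  have h1 := hf _ _ (left_ne_zero_of_mul h)
  have h2 := hg _ _ (right_ne_zero_of_mul h)
  have h3 := hP.deg_prod X' Y' ((W.pr X' Y').symm b).1 ((W.pr X' Y').symm b).2
  have h4 := hP.deg_prod X Y ((W.pr X Y).symm a).1 ((W.pr X Y).symm a).2
  rw [Prod.mk.eta, Equiv.apply_symm_apply] at h3 h4
  rw [h3, h4]
  push_cast
  omega

/-! ## membership -/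

theorem thru_ext_right (hP : W.Products) (hW : W.Calculus) {n : ℕ} {A S : W.Var n}
    (Q P : W.Var n → Prop) (hQ : ∀ T, Q T → P (W.prod A T)) {g : W.Hom S S} (hg : g ∈ Thru W Q S) :
    W.ext (W.id A) g ∈ Thru W P (W.prod A S) := by
  unfold Thru at hg
  induction hg using Submodule.span_induction with
  | mem x hx =>
    obtain ⟨T, r, hT, h, hh, g, hg, rfl⟩ := hx
    refine Submodule.subset_span ⟨W.prod A T, r, hQ T hT, W.ext (W.id A) h, ?_,
      W.ext (W.id A) g, ?_, ?_⟩
    · have := hP.ext_mem _ _ _ _ _ _ _ (hW.one_mem A) _ hh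
      rwa [zero_add] at this
    · have := hP.ext_mem _ _ _ _ _ _ _ (hW.one_mem A) _ hg
      rwa [zero_add] at this
    · unfold Weil.comp
      rw [ext_mul]
      unfold Weil.id
      rw [Matrix.one_mul]
  | zero =>
    rw [ext_zero_right]
    exact zero_mem _
  | add x y _ _ hx hy =>
    rw [ext_add_right]
    exact add_mem hx hy
  | smul q x _ hx =>
    rw [ext_smul_right]
    exact Submodule.smul_mem _ q hx

theorem thru_ext_left (hP : W.Products) (hW : W.Calculus) {n : ℕ} {A S : W.Var n}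
    (Q P : W.Var n → Prop) (hQ : ∀ B, Q B → P (W.prod B S)) {f : W.Hom A A} (hf : f ∈ Thru W Q A)
    {p : W.Hom S S} (hp : p ∈ W.cyc S S 0) :
    W.ext f p ∈ Thru W P (W.prod A S) := by
  unfold Thru at hf
  induction hf using Submodule.span_induction with
  | mem x hx =>
    obtain ⟨B, r, hB, h, hh, g, hg, rfl⟩ := hx
    refine Submodule.subset_span ⟨W.prod B S, r, hQ B hB, W.ext h (W.id S), ?_,
      W.ext g p, ?_, ?_⟩
    · have := hP.ext_mem _ _ _ _ _ _ _ hh _ (hW.one_mem S)
      rwa [add_zero] at this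
    · have := hP.ext_mem _ _ _ _ _ _ _ hg _ hp
      rwa [add_zero] at this
    · unfold Weil.comp
      rw [ext_mul]
      unfold Weil.id
      rw [Matrix.mul_one]
  | zero =>
    rw [ext_zero_left]
    exact zero_mem _
  | add x y _ _ hx hy =>
    rw [ext_add_left]
    exact add_mem hx hy
  | smul q x _ hx =>
    rw [ext_smul_left]
    exact Submodule.smul_mem _ q hx

/-! ## the key -/

/-- a map `r` which is zero on `Hⁱ`, `i ≠ 2`, has its columns in degree `2` -/
theorem col_deg {n : ℕ} {A : W.Var n} {r : W.Hom A A}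
    (h : ∀ i, i ≠ 2 → W.comp r (W.pj A i) = 0) {b a : Fin (W.rk A)} (hne : r b a ≠ 0) :
    W.deg A a = 2 := by
  by_contra h2
  have h3 := congrFun (congrFun (h (W.deg A a) h2) b) a
  unfold Weil.comp at h3
  rw [mul_pj_apply, if_pos rfl] at h3
  exact hne h3

theorem mul_pj_two {n : ℕ} {A : W.Var n} {r : W.Hom A A}
    (h : ∀ i, i ≠ 2 → W.comp r (W.pj A i) = 0) : r * W.pj A 2 = r := by
  ext b a
  rw [mul_pj_apply]
  split_ifs with h1
  · rfl
  · by_contra h2
    exact h1 (col_deg h (fun h3 => h2 h3.symm))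

/-- **The decomposition of `H(A × S)`, for a surface `A` and a curve `S`.** Let `r` be an algebraic
self-adjoint map, zero outside `H²(A)` and invariant under the monodromy, whose image is generated by
the images of the squares of the monodromy operators. Then `e = 1 - r ⊗ pj₁` fixes all classes which
are invariant under the monodromy, is the identity on `Hⁱ(A × S)` for `i ≠ 3`, is self-adjoint, and
commutes with the monodromy. -/
theorem prod_key (hP : W.Products) (D : Duality W) {m : ℕ} {A S : W.Var m}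
    (M : Pool.Agent.H16.FT.SurfaceCurve W A S) (Gr : Graph W D A S) (hS : W.dim S = 1)
    (hdual : ∀ g, W.comp (D.t A (M.ρA g)) (M.ρA g) = W.id A)
    {r : W.Hom A A} (hdeg : W.HasDeg 0 r) (hrt : D.t A r = r)
    (hr2 : ∀ i, i ≠ 2 → W.comp r (W.pj A i) = 0)
    (hrm : ∀ g, W.comp (M.ρA g) r = W.comp r (M.ρA g)) (hmax : M.Maximal r) :
    D.t (W.prod A S) (W.id _ - W.ext r (W.pj S 1)) = W.id _ - W.ext r (W.pj S 1) ∧
    (∀ g, W.comp (W.ext (M.ρA g) (M.ρS g)) (W.id _ - W.ext r (W.pj S 1)) =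
      W.comp (W.id _ - W.ext r (W.pj S 1)) (W.ext (M.ρA g) (M.ρS g))) ∧
    (∀ i, i ≠ 3 → W.comp (W.id _ - W.ext r (W.pj S 1)) (W.pj (W.prod A S) i) =
      W.pj (W.prod A S) i) ∧
    ∀ y, (∀ g, W.ap (W.ext (M.ρA g) (M.ρS g)) y = y) →
      W.ap (W.id _ - W.ext r (W.pj S 1)) y = y := by
  have hpj : W.HasDeg 0 (W.pj S 1) := by
    intro b a h
    rw [pj_apply] at h
    by_cases hba : b = a
    · rw [hba]; ring
    · rw [if_neg hba] at h
      exact absurd rfl h
  have htp : D.t S (W.pj S 1) = W.pj S 1 := by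
    rw [D.pj S 1 (by omega), hS]
  have hcomm1 : ∀ g, W.pj S 1 * M.ρS g = M.ρS g * W.pj S 1 := fun g => pj_comm0 (M.degS g) 1
  have hcomm2 : ∀ g, W.pj A 2 * M.ρA g = M.ρA g * W.pj A 2 := fun g => pj_comm0 (M.degA g) 2
  refine ⟨?_, ?_, ?_, ?_⟩
  · rw [sub_eq_add_neg, (D.lin _).map_add, (D.lin _).map_neg, D.one, Gr.t_ext _ _ hdeg hpj, hrt,
      htp]
  · intro g
    unfold Weil.comp Weil.id
    rw [mul_sub, sub_mul, one_mul, mul_one, ext_mul, ext_mul, hcomm1]
    have := hrm g
    unfold Weil.comp at this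
    rw [this]
  · intro i hi
    unfold Weil.comp Weil.id
    rw [sub_mul, one_mul, sub_eq_self]
    ext b a
    rw [mul_pj_apply, Matrix.zero_apply]
    split_ifs with h1
    · unfold Weil.ext
      simp only [Matrix.of_apply]
      by_contra hne
      have h2 := col_deg hr2 (left_ne_zero_of_mul hne)
      have h3 := right_ne_zero_of_mul hne
      rw [pj_apply] at h3
      have h4 : W.deg S ((W.pr A S).symm a).2 = 1 := by
        by_contra h5
        apply h3
        by_cases h6 : ((W.pr A S).symm b).2 = ((W.pr A S).symm a).2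
        · rw [if_pos h6, h6, if_neg h5]
        · rw [if_neg h6]
      have h5 := hP.deg_prod A S ((W.pr A S).symm a).1 ((W.pr A S).symm a).2
      rw [Prod.mk.eta, Equiv.apply_symm_apply] at h5
      omega
    · rfl
  · intro y hy
    obtain ⟨f, rfl⟩ := Gr.surj y
    have hzero : Gr.cl 0 = 0 := by
      have := Gr.lin.map_smul 0 0
      rwa [zero_smul, zero_smul] at this
    have heq : ∀ g, M.ρS g * f = f * M.ρA g := by
      intro g
      have h1 := hy g
      rw [Gr.ext_cl _ _ (M.degA g) (M.degS g)] at h1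
      have h2 : Gr.cl (W.comp (W.comp (M.ρS g) f) (D.t A (M.ρA g)) - f) = 0 := by
        rw [sub_eq_add_neg, Gr.lin.map_add, Gr.lin.map_neg, h1, add_neg_cancel]
      have h3 := sub_eq_zero.mp (Gr.inj _ h2)
      unfold Weil.comp at h3
      have h4 := hdual g
      unfold Weil.comp Weil.id at h4
      calc M.ρS g * f = M.ρS g * f * (D.t A (M.ρA g) * M.ρA g) := by rw [h4, Matrix.mul_one]
        _ = M.ρS g * f * D.t A (M.ρA g) * M.ρA g := by rw [Matrix.mul_assoc _ (D.t A (M.ρA g))]
        _ = f * M.ρA g := by rw [h3]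
    obtain ⟨f', hf'⟩ : ∃ f' : W.Hom A S, f' = W.pj S 1 * f * W.pj A 2 := ⟨_, rfl⟩
    have hf'eq : ∀ g, W.comp (M.ρS g) f' = W.comp f' (M.ρA g) := by
      intro g
      unfold Weil.comp
      rw [hf']
      calc M.ρS g * (W.pj S 1 * f * W.pj A 2) = (M.ρS g * W.pj S 1) * f * W.pj A 2 := by
            simp only [Matrix.mul_assoc]
        _ = W.pj S 1 * (M.ρS g * f) * W.pj A 2 := by
            rw [← hcomm1]
            simp only [Matrix.mul_assoc]
        _ = W.pj S 1 * f * (M.ρA g * W.pj A 2) := by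
            rw [heq]
            simp only [Matrix.mul_assoc]
        _ = W.pj S 1 * f * W.pj A 2 * M.ρA g := by
            rw [← hcomm2]
            simp only [Matrix.mul_assoc]
    have hz : W.pj S 1 * f * r = 0 := by
      have h1 : ∀ v : W.H A, (W.pj S 1 * f * r) *ᵥ v = 0 := by
        intro v
        obtain ⟨w, hw⟩ : ∃ w : W.H A, w = W.pj A 2 *ᵥ v := ⟨_, rfl⟩
        have hw2 : W.InH A 2 w := by rw [hw]; exact Pool.Agent.H16.FT.inH_pj 2 v
        have h2 := Pool.Agent.H16.FT.equivariant_zero M hmax (f := f')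
          (fun v _ => by
            unfold Weil.ap
            rw [hf', Matrix.mul_assoc, ← Matrix.mulVec_mulVec]
            exact Pool.Agent.H16.FT.inH_pj 1 _) hf'eq hw2
        unfold Weil.ap at h2
        have h3 : W.InH A 2 (r *ᵥ w) := inH_mulVec hdeg hw2
        have h4 : f' *ᵥ (r *ᵥ w) = (W.pj S 1 * f) *ᵥ (r *ᵥ w) := by
          rw [hf', ← Matrix.mulVec_mulVec, pj_mulVec 2 _ h3]
        rw [← Matrix.mulVec_mulVec]
        have h5 : r *ᵥ v = r *ᵥ w := by
          rw [hw, Matrix.mulVec_mulVec, mul_pj_two hr2]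
        rw [h5, ← h4, h2]
      ext b a
      have h2 := congrFun (h1 (Pi.single a 1)) b
      rw [Matrix.mulVec_single_one] at h2
      simpa using h2
    have h6 : W.ap (W.ext r (W.pj S 1)) (Gr.cl f) = 0 := by
      rw [Gr.ext_cl _ _ hdeg hpj, hrt]
      unfold Weil.comp
      rw [hz, hzero]
    unfold Weil.ap at h6 ⊢
    unfold Weil.id
    rw [Matrix.sub_mulVec, Matrix.one_mulVec, h6, sub_zero]

/-- `e = 1 - r ⊗ pj₁` is a sum of compositions through `A × T`, where `pj₀` and `pj₂` of the curve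
`S` factor through `T`, and through `B × S`, where `1 - r` factors through `B` -/
theorem prod_key_mem (hP : W.Products) (hW : W.Calculus) {m : ℕ} {A S : W.Var m}
    (Q₁ Q₂ P : W.Var m → Prop) (h₁ : ∀ B, Q₁ B → P (W.prod B S)) (h₂ : ∀ T, Q₂ T → P (W.prod A T))
    {r : W.Hom A A} (hr : W.id A - r ∈ Thru W Q₁ A)
    (hS : W.id S - W.pj S 1 ∈ Thru W Q₂ S) (hpj : W.pj S 1 ∈ W.cyc S S 0) :
    W.id (W.prod A S) - W.ext r (W.pj S 1) ∈ Thru W P (W.prod A S) := by
  have e : W.id (W.prod A S) - W.ext r (W.pj S 1) =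
      W.ext (W.id A) (W.id S - W.pj S 1) + W.ext (W.id A - r) (W.pj S 1) := by
    have h1 : W.ext (W.id A) (W.id S) = W.ext (W.id A) (W.id S - W.pj S 1) +
        W.ext (W.id A) (W.pj S 1) := by rw [← ext_add_right, sub_add_cancel]
    have h2 : W.ext (W.id A) (W.pj S 1) = W.ext (W.id A - r) (W.pj S 1) +
        W.ext r (W.pj S 1) := by rw [← ext_add_left, sub_add_cancel]
    rw [← ext_one, h1, h2]
    abel
  rw [e]
  exact add_mem (thru_ext_right hP hW Q₂ P h₂ hS) (thru_ext_left hP hW Q₁ P h₁ hr hpj)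

end Pool.Agent.H90.FT
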