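import Pool.Agent.H90.FT.ProdKey

/-!
# The square of an elliptic curve with non-constant j-invariant
-/

set_option autoImplicit false

open Matrix

namespace Pool.Agent.H90.FT

open Pool.Agent.H64.CC Pool.Agent.H64.FT

variable {K : Type} [Field K] [CharZero K] {W : Weil K}

/-- the class `x ⊗ y` on `X × Y` -/
def tn {n : ℕ} {X Y : W.Var n} (x : W.H X) (y : W.H Y) : W.H (W.prod X Y) :=
  fun b => x ((W.pr X Y).symm b).1 * y ((W.pr X Y).symm b).2

theorem ext_tn {n : ℕ} {X X' Y Y' : W.Var n} (f : W.Hom X X') (g : W.Hom Y Y') (x : W.H X)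
    (y : W.H Y) : W.ext f g *ᵥ tn x y = tn (f *ᵥ x) (g *ᵥ y) := by
  ext b
  unfold Weil.ext tn
  rw [Matrix.mulVec, dotProduct]
  simp only [Matrix.of_apply]
  rw [← Equiv.sum_comp (W.pr X Y), Fintype.sum_prod_type, Matrix.mulVec, Matrix.mulVec,
    dotProduct, dotProduct, Finset.sum_mul_sum]
  refine Finset.sum_congr rfl fun i _ => Finset.sum_congr rfl fun j _ => ?_
  rw [Equiv.symm_apply_apply]
  ring

theorem tn_add_left {n : ℕ} {X Y : W.Var n} (x x' : W.H X) (y : W.H Y) :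
    tn (x + x') y = tn x y + tn x' y := by
  ext b
  simp only [tn, Pi.add_apply]
  ring

theorem tn_add_right {n : ℕ} {X Y : W.Var n} (x : W.H X) (y y' : W.H Y) :
    tn x (y + y') = tn x y + tn x y' := by
  ext b
  simp only [tn, Pi.add_apply]
  ring

theorem tn_smul_left {n : ℕ} {X Y : W.Var n} (c : K) (x : W.H X) (y : W.H Y) :
    tn (c • x) y = c • tn x y := by
  ext b
  simp only [tn, Pi.smul_apply, smul_eq_mul]
  ring

theorem tn_smul_right {n : ℕ} {X Y : W.Var n} (c : K) (x : W.H X) (y : W.H Y) :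
    tn x (c • y) = c • tn x y := by
  ext b
  simp only [tn, Pi.smul_apply, smul_eq_mul]
  ring

theorem tn_deg (hP : W.Products) {n : ℕ} {X Y : W.Var n} {i j : ℕ} {x : W.H X} {y : W.H Y}
    (hx : W.InH X i x) (hy : W.InH Y j y) : W.InH (W.prod X Y) (i + j) (tn x y) := by
  intro b hb
  have h1 := hx _ (left_ne_zero_of_mul hb)
  have h2 := hy _ (right_ne_zero_of_mul hb)
  have h3 := hP.deg_prod X Y ((W.pr X Y).symm b).1 ((W.pr X Y).symm b).2
  rw [Prod.mk.eta, Equiv.apply_symm_apply] at h3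
  omega

/-- `E` is an elliptic curve over the function field of `C` with non-constant `j`-invariant and
semistable reduction: `ρ` is the representation of the monodromy group on `H(E)`, `s` is a generator
of the tame inertia group of a place of multiplicative reduction and `z` is a class in `H¹(E)` with
`u = (s - 1) z ≠ 0`, `(s - 1) u = 0`; and the transform `v = g u`, `g ∈ π`, is not a multiple of
`u`, so that `u` and `v` are a basis of `H¹(E)` and `(s - 1) v ≠ 0` -/
structure Multiplicative {n : ℕ} (E : W.Var n) {G : Type} [Group G] (ρ : G →* W.Hom E E)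
    (s : G) where
  z : W.H E
  g : G
  z_deg : W.InH E 1 z
  sq : W.ap (ρ s) (W.ap (ρ s) z - z) = W.ap (ρ s) z - z
  basis : ∀ x, W.InH E 1 x → ∃ a b : K,
    x = a • (W.ap (ρ s) z - z) + b • W.ap (ρ g) (W.ap (ρ s) z - z)
  move : W.ap (ρ s) (W.ap (ρ g) (W.ap (ρ s) z - z)) ≠ W.ap (ρ g) (W.ap (ρ s) z - z)
  sq' : W.ap (ρ s) (W.ap (ρ s) (W.ap (ρ g) (W.ap (ρ s) z - z)) -
    W.ap (ρ g) (W.ap (ρ s) z - z)) =
    W.ap (ρ s) (W.ap (ρ g) (W.ap (ρ s) z - z)) - W.ap (ρ g) (W.ap (ρ s) z - z)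

/-- **The symmetric square of `H¹(E)` is generated by the squares of the monodromy operators.** -/
theorem maximal_square (hP : W.Products) {m : ℕ} {E S : W.Var m}
    (M : Pool.Agent.H16.FT.SurfaceCurve W (W.prod E E) S) (ρ : M.π →* W.Hom E E)
    (hρ : ∀ g, M.ρA g = W.ext (ρ g) (ρ g)) (hdeg : ∀ g, W.HasDeg 0 (ρ g)) (c : M.place)
    (hE : Multiplicative E ρ (M.τ c)) {r : W.Hom (W.prod E E) (W.prod E E)}
    (hr : ∀ y, W.InH (W.prod E E) 2 y → W.ap r y ∈ Submodule.span K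
      {w | ∃ x, W.InH E 1 x ∧ ∃ x', W.InH E 1 x' ∧ w = tn x x' + tn x' x}) : M.Maximal r := by
  intro U hU hN y hy
  obtain ⟨z, g, hz, hsq, hbasis, hmove, hsq'⟩ := hE
  unfold Weil.ap at hsq hbasis hmove hsq' hU hN
  obtain ⟨u, hu⟩ : ∃ u, u = ρ (M.τ c) *ᵥ z - z := ⟨_, rfl⟩
  obtain ⟨v, hv⟩ : ∃ v, v = ρ g *ᵥ u := ⟨_, rfl⟩
  rw [← hu] at hsq hmove hsq'
  rw [← hv] at hmove hsq'
  simp only [← hu, ← hv] at hbasis
  obtain ⟨a, b, hab⟩ := hbasis (ρ (M.τ c) *ᵥ v - v) (by
    have h1 : W.InH E 1 u := by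
      rw [hu]
      exact Pool.Agent.H16.FT.inH_sub (inH_mulVec (hdeg _) hz) hz
    have h2 : W.InH E 1 v := by rw [hv]; exact inH_mulVec (hdeg g) h1
    exact Pool.Agent.H16.FT.inH_sub (inH_mulVec (hdeg _) h2) h2)
  have hb : b = 0 := by
    have h1 : ρ (M.τ c) *ᵥ (a • u + b • v) = a • u + b • (ρ (M.τ c) *ᵥ v) := by
      rw [Matrix.mulVec_add, Matrix.mulVec_smul, Matrix.mulVec_smul, hsq]
    rw [hab, h1, add_right_inj] at hsq'
    have h2 : b • (ρ (M.τ c) *ᵥ v - v) = 0 := by rw [smul_sub, hsq', sub_self]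
    exact (smul_eq_zero.mp h2).resolve_right (sub_ne_zero.mpr hmove)
  rw [hb, zero_smul, add_zero] at hab
  have ha : a ≠ 0 := by
    intro h0
    rw [h0, zero_smul, sub_eq_zero] at hab
    exact hmove hab
  have hsv : ρ (M.τ c) *ᵥ v = v + a • u := by rw [← hab]; abel
  have hsz : ρ (M.τ c) *ᵥ z = z + u := by rw [hu]; abel
  -- `u ⊗ u` lies in `U`
  have huu : tn u u ∈ U := by
    have h1 := hN c (tn z z) (tn_deg hP hz hz)
    rw [hρ, ext_tn, hsz] at h1
    have h2 : tn (z + u) (z + u) - tn z z = tn z u + tn u z + tn u u := by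
      rw [tn_add_left, tn_add_right, tn_add_right]
      abel
    rw [h2, Matrix.mulVec_add, Matrix.mulVec_add, ext_tn, ext_tn, ext_tn, hsz, hsq] at h1
    have h3 : tn (z + u) u + tn u (z + u) + tn u u - (tn z u + tn u z + tn u u) =
        (2 : K) • tn u u := by
      rw [tn_add_left, tn_add_right, two_smul]
      abel
    rw [h3] at h1
    have h4 := U.smul_mem (2 : K)⁻¹ h1
    rwa [smul_smul, inv_mul_cancel₀ two_ne_zero, one_smul] at h4
  have hvv : tn v v ∈ U := by
    have h1 := hU g _ huu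
    rwa [hρ, ext_tn, ← hv] at h1
  have huv : tn u v + tn v u ∈ U := by
    have h1 := hU (M.τ c) _ hvv
    rw [hρ, ext_tn, hsv] at h1
    have h2 : tn (v + a • u) (v + a • u) = tn v v + (a * a) • tn u u + a • (tn u v + tn v u) := by
      rw [tn_add_left, tn_add_right, tn_add_right, tn_smul_left, tn_smul_left, tn_smul_right,
        tn_smul_right, smul_smul, smul_add]
      abel
    rw [h2] at h1
    have h3 := U.sub_mem h1 (U.add_mem hvv (U.smul_mem (a * a) huu))
    rw [add_sub_cancel_left] at h3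
    have h4 := U.smul_mem a⁻¹ h3
    rwa [smul_smul, inv_mul_cancel₀ ha, one_smul] at h4
  have hspan : Submodule.span K
      {w | ∃ x, W.InH E 1 x ∧ ∃ x', W.InH E 1 x' ∧ w = tn x x' + tn x' x} ≤ U := by
    rw [Submodule.span_le]
    rintro w ⟨x, hx, x', hx', rfl⟩
    obtain ⟨p, q, hpq⟩ := hbasis x hx
    obtain ⟨p', q', hpq'⟩ := hbasis x' hx'
    have h1 : tn x x' + tn x' x = (2 * (p * p')) • tn u u + (2 * (q * q')) • tn v v +
        (p * q' + p' * q) • (tn u v + tn v u) := by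
      rw [hpq, hpq']
      ext k
      simp only [tn, Pi.add_apply, Pi.smul_apply, smul_eq_mul]
      ring
    show tn x x' + tn x' x ∈ U
    rw [h1]
    exact U.add_mem (U.add_mem (U.smul_mem _ huu) (U.smul_mem _ hvv)) (U.smul_mem _ huv)
  exact hspan (hr y hy)

end Pool.Agent.H90.FT
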