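import Pool.Agent.H64.CC.Weil

/-!
# The comparison of two Weil cohomologies
-/

set_option autoImplicit false

open Matrix

namespace Pool.Agent.H90.FT

open Pool.Agent.H64.CC

variable {K K' : Type} [Field K] [CharZero K] [Field K'] [CharZero K']

/-- Two Weil cohomologies `W` and `W'` of the same varieties, for example the `ℓ`-adic and the
crystalline cohomology.

* `var X` is the variety `X` as a variety of the theory `W'`;
* `cls X f f'`: there is a cycle with rational coefficients on `X × X`, of dimension `dim X`, whose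
  classes in the two theories are `f` and `f'`. The cycles can be added, multiplied by rational
  numbers and composed;
* `katzMessing` is the theorem of Katz and Messing for the varieties over `F 0`, the algebraic
  closure of a finite field: the traces of the correspondence given by a cycle on the cohomology
  groups `Hⁱ(X)` of the two theories are equal and rational;
* `specialise`: a variety `X` over `F (n + 1)` is the geometric generic fibre of a smooth projective
  family over a curve over `F n`, and a cycle on `X × X` specialises to a cycle on `X₀ × X₀`, for a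
  general fibre `X₀`; the specialisation `s : H(X) → H(X₀)` is an isomorphism in both theories, with
  inverse `t`, and the classes of the cycle correspond to each other. -/
structure Comparison (W : Weil K) (W' : Weil K') where
  var : ∀ {n : ℕ}, W.Var n → W'.Var n
  cls : ∀ {n : ℕ} (X : W.Var n), W.Hom X X → W'.Hom (var X) (var X) → Prop
  left : ∀ {n : ℕ} (X : W.Var n), ∀ f ∈ W.cyc X X 0, ∃ f', cls X f f'
  right : ∀ {n : ℕ} (X : W.Var n), ∀ f' ∈ W'.cyc (var X) (var X) 0, ∃ f, cls X f f'
  mem : ∀ {n : ℕ} (X : W.Var n) (f : W.Hom X X) (f' : W'.Hom (var X) (var X)), cls X f f' →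
    f ∈ W.cyc X X 0 ∧ f' ∈ W'.cyc (var X) (var X) 0
  one : ∀ {n : ℕ} (X : W.Var n), cls X (W.id X) (W'.id (var X))
  add : ∀ {n : ℕ} (X : W.Var n) (f g : W.Hom X X) (f' g' : W'.Hom (var X) (var X)),
    cls X f f' → cls X g g' → cls X (f + g) (f' + g')
  rat : ∀ {n : ℕ} (X : W.Var n) (q : ℚ) (f : W.Hom X X) (f' : W'.Hom (var X) (var X)),
    cls X f f' → cls X (W.rat q f) (W'.rat q f')
  comp : ∀ {n : ℕ} (X : W.Var n) (f g : W.Hom X X) (f' g' : W'.Hom (var X) (var X)),
    cls X f f' → cls X g g' → cls X (W.comp g f) (W'.comp g' f')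
  katzMessing : ∀ (X : W.Var 0) (f : W.Hom X X) (f' : W'.Hom (var X) (var X)), cls X f f' →
    ∀ i : ℕ, ∃ q : ℚ, W.tr (W.comp f (W.pj X i)) = (q : K) ∧
      W'.tr (W'.comp f' (W'.pj (var X) i)) = (q : K')
  specialise : ∀ {n : ℕ} (X : W.Var (n + 1)) (f : W.Hom X X) (f' : W'.Hom (var X) (var X)),
    cls X f f' → ∃ (X₀ : W.Var n) (s : W.Hom X X₀) (t : W.Hom X₀ X)
      (s' : W'.Hom (var X) (var X₀)) (t' : W'.Hom (var X₀) (var X)),
      W.HasDeg 0 s ∧ W'.HasDeg 0 s' ∧
      W.comp t s = W.id X ∧ W.comp s t = W.id X₀ ∧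
      W'.comp t' s' = W'.id (var X) ∧ W'.comp s' t' = W'.id (var X₀) ∧
      cls X₀ (W.comp (W.comp s f) t) (W'.comp (W'.comp s' f') t')

end Pool.Agent.H90.FT
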