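import Pool.Agent.H64.CC.Ind
import Pool.Agent.H90.FT.TransferDefs

/-!
# The Künneth standard conjectures do not depend on the Weil cohomology
-/

set_option autoImplicit false

open Matrix

namespace Pool.Agent.H90.FT

open Pool.Agent.H64.CC

variable {K K' : Type} [Field K] [CharZero K] [Field K'] [CharZero K']

section matrices

theorem comm_pow {m : ℕ} {L : Type} [Field L] {M P : Matrix (Fin m) (Fin m) L}
    (hc : M * P = P * M) (hP : P * P = P) (k : ℕ) : (M * P) ^ (k + 1) = M ^ (k + 1) * P := by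
  induction k with
  | zero => rw [zero_add, pow_one, pow_one]
  | succ k ih =>
    rw [pow_succ (M * P), ih, pow_succ M (k + 1)]
    calc M ^ (k + 1) * P * (M * P) = M ^ (k + 1) * (P * M) * P := by simp only [mul_assoc]
      _ = M ^ (k + 1) * (M * P) * P := by rw [hc]
      _ = M ^ (k + 1) * M * (P * P) := by simp only [mul_assoc]
      _ = M ^ (k + 1) * M * P := by rw [hP]

theorem trace_aeval {m : ℕ} {L : Type} [Field L] (M P : Matrix (Fin m) (Fin m) L)
    (h1 : ∀ k : ℕ, (M ^ k * P).trace = P.trace) (p : Polynomial L) :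
    (Polynomial.aeval M p * P).trace = p.eval 1 * P.trace := by
  induction p using Polynomial.induction_on' with
  | add p q hp hq =>
    rw [map_add, add_mul, Matrix.trace_add, hp, hq, Polynomial.eval_add, add_mul]
  | monomial k a =>
    rw [Polynomial.aeval_monomial, Polynomial.eval_monomial, one_pow, mul_one,
      ← Algebra.smul_def, smul_mul_assoc, Matrix.trace_smul, h1 k, smul_eq_mul]

/-- a matrix with the traces of an idempotent is, up to a polynomial, this idempotent -/
theorem idem_of_traces {m : ℕ} {L : Type} [Field L] [CharZero L] (M P : Matrix (Fin m) (Fin m) L)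
    (hc : M * P = P * M) (hP : P * P = P)
    (h1 : ∀ k : ℕ, (M ^ k * P).trace = P.trace)
    (h2 : ∀ k : ℕ, (M ^ (k + 1) * (1 - P)).trace = 0) :
    ∃ N : ℕ, (1 - (1 - M) ^ N) ^ N = P := by
  have hQ : (1 - P) * (1 - P) = 1 - P := by
    rw [mul_sub, mul_one, sub_mul, one_mul, hP, sub_self, sub_zero]
  have hcQ : M * (1 - P) = (1 - P) * M := by rw [mul_sub, sub_mul, mul_one, one_mul, hc]
  have hc1 : (1 - M) * P = P * (1 - M) := by rw [sub_mul, mul_sub, one_mul, mul_one, hc]
  obtain ⟨A, hA⟩ := nil_of_trace (M * (1 - P)) fun k => by rw [comm_pow hcQ hQ]; exact h2 k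
  obtain ⟨B, hB⟩ := nil_of_trace ((1 - M) * P) fun k => by
    rw [comm_pow hc1 hP]
    have e : (1 - M) ^ (k + 1) = Polynomial.aeval M ((1 - Polynomial.X : Polynomial L) ^ (k + 1)) := by
      rw [map_pow, map_sub, map_one, Polynomial.aeval_X]
    rw [e, trace_aeval M P h1, Polynomial.eval_pow, Polynomial.eval_sub, Polynomial.eval_one,
      Polynomial.eval_X, sub_self, zero_pow (Nat.succ_ne_zero k), zero_mul]
  obtain ⟨N, hN⟩ : ∃ N, N = A + B + 1 := ⟨_, rfl⟩
  have hA2 : M ^ N * (1 - P) = 0 := by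
    have e : N = (A + B) + 1 := hN
    rw [e, ← comm_pow hcQ hQ, show A + B + 1 = A + (B + 1) from rfl, pow_add, hA, zero_mul]
  have hB2 : (1 - M) ^ N * P = 0 := by
    have e : N = (A + B) + 1 := hN
    rw [e, ← comm_pow hc1 hP, show A + B + 1 = (A + 1) + B by omega, pow_add, hB, mul_zero]
  refine ⟨N, ?_⟩
  obtain ⟨R, hR⟩ : ∃ R, R = 1 - (1 - M) ^ N := ⟨_, rfl⟩
  rw [← hR]
  have hRP : R * P = P := by rw [hR, sub_mul, one_mul, hB2, sub_zero]
  have hRPk : ∀ k : ℕ, R ^ k * P = P := by
    intro k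
    induction k with
    | zero => rw [pow_zero, one_mul]
    | succ k ih => rw [pow_succ, mul_assoc, hRP, ih]
  obtain ⟨u, hu⟩ : ∃ u : Polynomial L, (1 : Polynomial L) - (1 - Polynomial.X) ^ N =
      Polynomial.X * u := by
    have h3 : (Polynomial.X : Polynomial L) ∣ 1 - (1 - Polynomial.X) ^ N := by
      rw [Polynomial.X_dvd_iff, Polynomial.coeff_zero_eq_eval_zero, Polynomial.eval_sub,
        Polynomial.eval_pow, Polynomial.eval_sub, Polynomial.eval_one, Polynomial.eval_X, sub_zero,
        one_pow, sub_self]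
    exact h3
  have hRu : R = M * Polynomial.aeval M u := by
    have h4 := congrArg (Polynomial.aeval M) hu
    rw [map_sub, map_one, map_pow, map_sub, map_one, Polynomial.aeval_X, map_mul,
      Polynomial.aeval_X] at h4
    rw [hR, h4]
  have hcu : Commute M (Polynomial.aeval M u) := by
    have h5 : Polynomial.aeval M (Polynomial.X * u) = Polynomial.aeval M (u * Polynomial.X) := by
      rw [mul_comm]
    rw [map_mul, map_mul, Polynomial.aeval_X] at h5
    exact h5
  have hRQ : R ^ N * (1 - P) = 0 := by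
    rw [hRu, hcu.mul_pow, (hcu.pow_pow N N).eq, mul_assoc, hA2, mul_zero]
  calc R ^ N = R ^ N * P + R ^ N * (1 - P) := by rw [← mul_add, add_sub_cancel, mul_one]
    _ = P := by rw [hRPk, hRQ, add_zero]

end matrices

section core

variable {m m' : ℕ}

/-- the projector onto the basis vectors whose degree satisfies `S` -/
def pS {L : Type} [Field L] {k : ℕ} (deg : Fin k → ℕ) (S : ℕ → Prop) [DecidablePred S] :
    Matrix (Fin k) (Fin k) L :=
  Matrix.diagonal fun a => if S (deg a) then 1 else 0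

theorem pS_idem {L : Type} [Field L] {k : ℕ} (deg : Fin k → ℕ) (S : ℕ → Prop) [DecidablePred S] :
    (pS deg S : Matrix (Fin k) (Fin k) L) * pS deg S = pS deg S := by
  unfold pS
  rw [Matrix.diagonal_mul_diagonal]
  congr 1
  funext a
  split_ifs <;> simp

theorem pS_comp {L : Type} [Field L] {k : ℕ} (deg : Fin k → ℕ) (S : ℕ → Prop) [DecidablePred S]
    (i : ℕ) : (pS deg S : Matrix (Fin k) (Fin k) L) * pS deg (fun d => d = i) =
      if S i then pS deg (fun d => d = i) else 0 := by
  unfold pS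
  rw [Matrix.diagonal_mul_diagonal]
  by_cases hS : S i
  · rw [if_pos hS]
    congr 1
    funext a
    by_cases h : deg a = i
    · simp [h, hS]
    · simp [h]
  · rw [if_neg hS, ← Matrix.diagonal_zero]
    congr 1
    funext a
    by_cases h : deg a = i
    · simp [h, hS]
    · simp [h]

theorem pS_sum {L : Type} [Field L] {k : ℕ} (deg : Fin k → ℕ) (S : ℕ → Prop) [DecidablePred S]
    (N : ℕ) (hN : ∀ a, deg a < N) : (pS deg S : Matrix (Fin k) (Fin k) L) =
      ∑ i ∈ Finset.range N, if S i then pS deg (fun d => d = i) else 0 := by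
  have h1 : (pS deg S : Matrix (Fin k) (Fin k) L) =
      pS deg S * ∑ i ∈ Finset.range N, pS deg (fun d => d = i) := by
    have h2 : (∑ i ∈ Finset.range N, pS deg (fun d => d = i) : Matrix (Fin k) (Fin k) L) = 1 := by
      ext b a
      rw [Matrix.sum_apply]
      unfold pS
      by_cases h : b = a
      · subst h
        simp only [Matrix.diagonal_apply_eq, Matrix.one_apply_eq]
        rw [Finset.sum_ite_eq]
        simp [hN b]
      · rw [Matrix.one_apply_ne h]
        exact Finset.sum_eq_zero fun i _ => Matrix.diagonal_apply_ne _ h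
    rw [h2, mul_one]
  rw [h1, Finset.mul_sum]
  exact Finset.sum_congr rfl fun i _ => pS_comp deg S i

theorem core (deg : Fin m → ℕ) (deg' : Fin m' → ℕ)
    (R : Matrix (Fin m) (Fin m) K → Matrix (Fin m') (Fin m') K' → Prop)
    (hone : R 1 1) (hsub : ∀ f g f' g', R f f' → R g g' → R (f - g) (f' - g'))
    (hmul : ∀ f g f' g', R f f' → R g g' → R (g * f) (g' * f'))
    (htr : ∀ f f', R f f' → ∀ i : ℕ, ∃ q : ℚ,
      (f * pS deg (fun d => d = i)).trace = (q : K) ∧
      (f' * pS deg' (fun d => d = i)).trace = (q : K'))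
    (hdeg : ∀ f f', R f f' → ∀ i : ℕ,
      f' * pS deg' (fun d => d = i) = pS deg' (fun d => d = i) * f')
    (S : ℕ → Prop) [DecidablePred S] (f' : Matrix (Fin m') (Fin m') K')
    (hf : R (pS deg S) f') : ∃ g, R g (pS deg' S) := by
  have hpow : ∀ (f : Matrix (Fin m) (Fin m) K) (f' : Matrix (Fin m') (Fin m') K'), R f f' →
      ∀ k : ℕ, R (f ^ k) (f' ^ k) := by
    intro f f' h k
    induction k with
    | zero => rw [pow_zero, pow_zero]; exact hone
    | succ k ih => rw [pow_succ, pow_succ]; exact hmul _ _ _ _ h ih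
  obtain ⟨N, hN⟩ : ∃ N, ∀ a, deg' a < N :=
    ⟨(∑ a, deg' a) + 1, fun a => Nat.lt_succ_of_le
      (Finset.single_le_sum (f := deg') (fun _ _ => Nat.zero_le _) (Finset.mem_univ a))⟩
  have hP1 : ∀ k : ℕ, ∀ i, S i → (pS deg S : Matrix (Fin m) (Fin m) K) ^ k *
      pS deg (fun d => d = i) = pS deg (fun d => d = i) := by
    intro k i hi
    induction k with
    | zero => rw [pow_zero, one_mul]
    | succ k ih => rw [pow_succ, mul_assoc, pS_comp, if_pos hi, ih]
  have hP0 : ∀ k : ℕ, ∀ i, ¬ S i → (pS deg S : Matrix (Fin m) (Fin m) K) ^ (k + 1) *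
      pS deg (fun d => d = i) = 0 := by
    intro k i hi
    rw [pow_succ, mul_assoc, pS_comp, if_neg hi, mul_zero]
  have t1 : ∀ k : ℕ, ∀ i, S i → (f' ^ k * pS deg' (fun d => d = i)).trace =
      (pS deg' (fun d => d = i) : Matrix (Fin m') (Fin m') K').trace := by
    intro k i hi
    obtain ⟨q, hq, hq'⟩ := htr _ _ (hpow _ _ hf k) i
    obtain ⟨r, hr, hr'⟩ := htr _ _ hone i
    rw [hP1 k i hi] at hq
    rw [one_mul] at hr hr'
    have e : q = r := by
      have h3 : (q : K) = (r : K) := by rw [← hq, ← hr]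
      exact_mod_cast h3
    rw [hq', hr', e]
  have t0 : ∀ k : ℕ, ∀ i, ¬ S i → (f' ^ (k + 1) * pS deg' (fun d => d = i)).trace = 0 := by
    intro k i hi
    obtain ⟨q, hq, hq'⟩ := htr _ _ (hpow _ _ hf (k + 1)) i
    rw [hP0 k i hi, Matrix.trace_zero] at hq
    have e : q = 0 := by
      have h3 : (q : K) = ((0 : ℚ) : K) := by rw [← hq, Rat.cast_zero]
      exact_mod_cast h3
    rw [hq', e, Rat.cast_zero]
  have hsum := pS_sum (L := K') deg' S N hN
  have hsum1 := pS_sum (L := K') deg' (fun _ => True) N hN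
  have hone' : (pS deg' (fun _ => True) : Matrix (Fin m') (Fin m') K') = 1 := by
    unfold pS
    simp
  have hcompl : (1 : Matrix (Fin m') (Fin m') K') - pS deg' S =
      ∑ i ∈ Finset.range N, if S i then 0 else pS deg' (fun d => d = i) := by
    rw [← hone', hsum1, hsum, ← Finset.sum_sub_distrib]
    refine Finset.sum_congr rfl fun i _ => ?_
    by_cases hi : S i
    · simp [hi]
    · simp [hi]
  have hc : f' * pS deg' S = pS deg' S * f' := by
    rw [hsum, Finset.mul_sum, Finset.sum_mul]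
    refine Finset.sum_congr rfl fun i _ => ?_
    by_cases hi : S i
    · rw [if_pos hi]; exact hdeg _ _ hf i
    · rw [if_neg hi, mul_zero, zero_mul]
  obtain ⟨M, hM⟩ := idem_of_traces f' (pS deg' S) hc (pS_idem deg' S)
    (by
      intro k
      rw [hsum, Finset.mul_sum, Matrix.trace_sum, Matrix.trace_sum]
      refine Finset.sum_congr rfl fun i _ => ?_
      by_cases hi : S i
      · rw [if_pos hi]; exact t1 k i hi
      · rw [if_neg hi, mul_zero])
    (by
      intro k
      rw [hcompl, Finset.mul_sum, Matrix.trace_sum]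
      refine Finset.sum_eq_zero fun i _ => ?_
      by_cases hi : S i
      · rw [if_pos hi, mul_zero, Matrix.trace_zero]
      · rw [if_neg hi]; exact t0 k i hi)
  refine ⟨(1 - (1 - pS deg S) ^ M) ^ M, ?_⟩
  rw [← hM]
  exact hpow _ _ (hsub _ _ _ _ hone (hpow _ _ (hsub _ _ _ _ hone hf) M)) M

end core

section transfer

variable {W : Weil K} {W' : Weil K'}

theorem pj_eq {n : ℕ} (X : W.Var n) (i : ℕ) : W.pj X i = pS (W.deg X) (fun d => d = i) := rfl

theorem even_eq {n : ℕ} (X : W.Var n) : W.even X = pS (W.deg X) Even := rfl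

theorem pj_comm {n m : ℕ} {X : W.Var n} {Y : W.Var m} {f : W.Hom X Y}
    (hf : W.HasDeg 0 f) (i : ℕ) : W.pj Y i * f = f * W.pj X i := by
  ext b a
  unfold Weil.pj
  rw [Matrix.diagonal_mul, Matrix.mul_diagonal]
  by_cases h0 : f b a = 0
  · simp [h0]
  · have h1 := hf b a h0
    have h2 : W.deg Y b = W.deg X a := by omega
    rw [h2, mul_comm]

theorem trace_conj {n m : ℕ} {X : W.Var n} {Y : W.Var m} {s : W.Hom X Y} {t : W.Hom Y X}
    (hs : W.HasDeg 0 s) (ts : t * s = 1) (f : W.Hom X X) (i : ℕ) :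
    (s * f * t * W.pj Y i).trace = (f * W.pj X i).trace := by
  rw [Matrix.mul_assoc s f t, Matrix.mul_assoc s (f * t) (W.pj Y i), Matrix.trace_mul_comm s,
    Matrix.mul_assoc f t (W.pj Y i), Matrix.mul_assoc f (t * W.pj Y i) s,
    Matrix.mul_assoc t (W.pj Y i) s, pj_comm hs, ← Matrix.mul_assoc t s, ts, Matrix.one_mul]

/-- the traces of corresponding correspondences are equal, for all varieties -/
theorem Comparison.traces (Φ : Comparison W W') : ∀ {n : ℕ} (X : W.Var n) (f : W.Hom X X)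
    (f' : W'.Hom (Φ.var X) (Φ.var X)), Φ.cls X f f' →
    ∀ i : ℕ, ∃ q : ℚ, W.tr (W.comp f (W.pj X i)) = (q : K) ∧
      W'.tr (W'.comp f' (W'.pj (Φ.var X) i)) = (q : K') := by
  intro n
  induction n with
  | zero => exact Φ.katzMessing
  | succ n ih =>
    intro X f f' hf i
    obtain ⟨X₀, s, t, s', t', hs, hs', ts, st, ts', st', hspec⟩ := Φ.specialise X f f' hf
    obtain ⟨q, hq, hq'⟩ := ih X₀ _ _ hspec i
    refine ⟨q, ?_, ?_⟩
    · rw [← hq]
      exact (trace_conj hs ts f i).symm
    · rw [← hq']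
      exact (trace_conj hs' ts' f' i).symm

/-- the sums of Künneth projectors are algebraic in one theory if and only if they are algebraic in
the other theory -/
theorem Comparison.transfer (Φ : Comparison W W') (hW : W.Calculus) (hW' : W'.Calculus) {n : ℕ}
    (X : W.Var n) (S : ℕ → Prop) [DecidablePred S] :
    (pS (W.deg X) S : W.Hom X X) ∈ W.cyc X X 0 ↔
      (pS (W'.deg (Φ.var X)) S : W'.Hom (Φ.var X) (Φ.var X)) ∈ W'.cyc (Φ.var X) (Φ.var X) 0 := by
  have hneg : ∀ (f : W.Hom X X) (f' : W'.Hom (Φ.var X) (Φ.var X)), Φ.cls X f f' →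
      Φ.cls X (-f) (-f') := by
    intro f f' h
    have h1 := Φ.rat X (-1) f f' h
    have e1 : W.rat (-1) f = -f := by
      unfold Weil.rat
      rw [Rat.cast_neg, Rat.cast_one, neg_smul, one_smul]
    have e2 : W'.rat (-1) f' = -f' := by
      unfold Weil.rat
      rw [Rat.cast_neg, Rat.cast_one, neg_smul, one_smul]
    rw [e1, e2] at h1
    exact h1
  have hsub : ∀ (f g : W.Hom X X) (f' g' : W'.Hom (Φ.var X) (Φ.var X)), Φ.cls X f f' →
      Φ.cls X g g' → Φ.cls X (f - g) (f' - g') := by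
    intro f g f' g' h1 h2
    rw [sub_eq_add_neg, sub_eq_add_neg]
    exact Φ.add X _ _ _ _ h1 (hneg _ _ h2)
  constructor
  · intro h
    obtain ⟨f', hf'⟩ := Φ.left X _ h
    obtain ⟨g, hg⟩ := core (W.deg X) (W'.deg (Φ.var X)) (Φ.cls X) (Φ.one X) hsub
      (fun f g f' g' h1 h2 => Φ.comp X f g f' g' h1 h2)
      (fun f f' h i => Φ.traces X f f' h i)
      (fun f f' h i => (pj_comm (hW'.cyc_deg _ _ 0 f' (Φ.mem X f f' h).2) i).symm) S f' hf'
    exact (Φ.mem X _ _ hg).2
  · intro h
    obtain ⟨f, hf⟩ := Φ.right X _ h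
    obtain ⟨g, hg⟩ := core (W'.deg (Φ.var X)) (W.deg X) (fun a b => Φ.cls X b a) (Φ.one X)
      (fun f g f' g' h1 h2 => hsub _ _ _ _ h1 h2)
      (fun f g f' g' h1 h2 => Φ.comp X f' g' f g h1 h2)
      (fun f f' h i => by
        obtain ⟨q, hq, hq'⟩ := Φ.traces X f' f h i
        exact ⟨q, hq', hq⟩)
      (fun f f' h i => (pj_comm (hW.cyc_deg _ _ 0 f' (Φ.mem X f' f h).1) i).symm) S f hf
    exact (Φ.mem X _ _ hg).1

/-- the conjectures `C(X)` and `C⁺(X)` do not depend on the Weil cohomology -/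
theorem transfer_C (Φ : Comparison W W') (hW : W.Calculus) (hW' : W'.Calculus) {n : ℕ}
    (X : W.Var n) : W.C X ↔ W'.C (Φ.var X) :=
  forall_congr' fun i => Φ.transfer hW hW' X (fun d => d = i)

theorem transfer_Cplus (Φ : Comparison W W') (hW : W.Calculus) (hW' : W'.Calculus) {n : ℕ}
    (X : W.Var n) : W.Cplus X ↔ W'.Cplus (Φ.var X) :=
  Φ.transfer hW hW' X Even

end transfer

end Pool.Agent.H90.FT
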