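import Pool.Agent.H64.FT.Class

/-!
# Fourfolds fibred over a curve with generic fibre `E × E × S`
-/

set_option autoImplicit false

open Matrix

namespace Pool.Agent.H90.FT

open Pool.Agent.H64.CC Pool.Agent.H64.FT

variable {K : Type} [Field K] [CharZero K] {W : Weil K}

/-- the action on `H(E × E)` of the exchange of the two factors, `x ⊗ y ↦ (-1) ^ (deg x deg y) y ⊗ x` -/
def swap {n : ℕ} (E : W.Var n) : W.Hom (W.prod E E) (W.prod E E) :=
  Matrix.of fun b a => if ((W.pr E E).symm b).1 = ((W.pr E E).symm a).2 ∧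
    ((W.pr E E).symm b).2 = ((W.pr E E).symm a).1 then
    (-1) ^ (W.deg E ((W.pr E E).symm a).1 * W.deg E ((W.pr E E).symm a).2) else 0

/-- the projector of `H(E × E)` onto the symmetric square of `H¹(E)` -/
def sym {n : ℕ} (E : W.Var n) : W.Hom (W.prod E E) (W.prod E E) :=
  W.rat (1 / 2) (W.comp (W.id _ - swap E) (W.ext (W.pj E 1) (W.pj E 1)))

/-- Let `E` be an elliptic curve and `S` a curve over `F (n + 1)`, and let `mon` be the monodromy
group of a fibration with geometric generic fibre `E × E × S`, acting on `H(E × E × S)`: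

* `π`, `ρ`, `σ`: the representations of (a subgroup of finite index of) the monodromy group on
  `H(E)` and `H(S)`; it preserves the Poincaré duality on `E` (`dual`) and acts on `H(E × E × S)` by
  the tensor products; `τ c`, for a place `c` of bad reduction, is a generator of the tame inertia
  group; it acts on `H¹(S)` by `1 + N` with `N ^ 2 = 0`; `bad`: a place of multiplicative reduction
  of `E`, where the `j`-invariant has a pole;
* `G`: the Künneth formula and Poincaré duality for `(E × E) × S`; `t_ext`, `t_swap`: the duality on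
  `E × E`; `swap_mem`: the exchange of the factors is a correspondence; `pointE`, `pointS`: the
  projectors `pj₀` and `pj₂` of a curve factor through a point; `alt`: `H²(E × E)` contains the
  exterior square of `H¹(E)`, which is generated by the class of the diagonal minus
  `E × 0 + 0 × E`, and the projector onto it factors through a point;
* `iso₁`, `iso₂`, `iso₃`: `E × T` and `T × E` are isomorphic to `E` for a point `T`, and
  `(E × E) × T` is isomorphic to `E × E`; `pairE`, `pairS`: the Galois representations for the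
  threefolds with geometric generic fibre `E × E` and `E × S`, and `H¹(E)` degenerates; `low`: the
  varieties with geometric generic fibre `T × S`, where `T` is a point, are surfaces. -/
structure EllipticSquare (W : Weil K) (D : Duality W) (𝓕 : Fibrations W) {n : ℕ}
    (E S : W.Var (n + 1)) (mon : Set (W.Hom (W.prod (W.prod E E) S) (W.prod (W.prod E E) S))) where
  π : Type
  [grp : Group π]
  ρ : π →* W.Hom E E
  σ : π →* W.Hom S S
  dim_E : W.dim E = 1
  dim_S : W.dim S = 1
  degE : ∀ g, W.HasDeg 0 (ρ g)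
  degS : ∀ g, W.HasDeg 0 (σ g)
  dual : ∀ g, W.comp (D.t E (ρ g)) (ρ g) = W.id E
  place : Type
  τ : place → π
  unip : ∀ c v, W.InH S 1 v → W.ap (σ (τ c)) (W.ap (σ (τ c)) v - v) = W.ap (σ (τ c)) v - v
  c₀ : place
  bad : Multiplicative E ρ (τ c₀)
  mem : ∀ g, W.ext (W.ext (ρ g) (ρ g)) (σ g) ∈ mon
  tensor : ∀ g ∈ mon, ∃ (a : W.Hom E E) (b : W.Hom S S), W.HasDeg 0 a ∧ W.HasDeg 0 b ∧
    g = W.ext (W.ext a a) b
  G : Graph W D (W.prod E E) S
  t_ext : ∀ a b : W.Hom E E, W.HasDeg 0 a → W.HasDeg 0 b →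
    D.t (W.prod E E) (W.ext a b) = W.ext (D.t E a) (D.t E b)
  t_swap : D.t (W.prod E E) (swap E) = swap E
  pointE : W.id E - W.pj E 1 ∈ Through W (fun T => W.dim T = 0) E
  pointS : W.id S - W.pj S 1 ∈ Through W (fun T => W.dim T = 0) S
  alt : W.comp (W.id _ + swap E) (W.ext (W.pj E 1) (W.pj E 1)) ∈
    Through W (fun T => W.dim T = 0) (W.prod E E)
  iso₁ : ∀ T Z, W.dim T = 0 → 𝓕.Fib Z (W.prod (W.prod E E) T) → Nonempty (𝓕.Fib Z (W.prod E E))
  iso₂ : ∀ T Z, W.dim T = 0 → 𝓕.Fib Z (W.prod (W.prod E T) S) → Nonempty (𝓕.Fib Z (W.prod E S))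
  iso₃ : ∀ T Z, W.dim T = 0 → 𝓕.Fib Z (W.prod (W.prod T E) S) → Nonempty (𝓕.Fib Z (W.prod E S))
  pairE : ∀ (Z : W.Var n) (f : 𝓕.Fib Z (W.prod E E)), ∃ P : H16.FT.CurvePair W E E,
    P.Degenerates ∧ Nonempty P.Class ∧ ∀ g ∈ P.π, W.ext (P.ρ₁ g) (P.ρ₂ g) ∈ 𝓕.mon f
  pairS : ∀ (Z : W.Var n) (f : 𝓕.Fib Z (W.prod E S)), ∃ P : H16.FT.CurvePair W E S,
    P.Degenerates ∧ Nonempty P.Class ∧ ∀ g ∈ P.π, W.ext (P.ρ₁ g) (P.ρ₂ g) ∈ 𝓕.mon f

attribute [instance] EllipticSquare.grp

/-! ## entries -/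

theorem swap_apply {n : ℕ} (E : W.Var n) (b a : Fin (W.rk (W.prod E E))) :
    swap E b a = if ((W.pr E E).symm b).1 = ((W.pr E E).symm a).2 ∧
      ((W.pr E E).symm b).2 = ((W.pr E E).symm a).1 then
      (-1) ^ (W.deg E ((W.pr E E).symm a).1 * W.deg E ((W.pr E E).symm a).2) else 0 := rfl

/-- the exchange commutes with `a ⊗ a` -/
theorem swap_comm {n : ℕ} (E : W.Var n) (a : W.Hom E E) (ha : W.HasDeg 0 a) :
    swap E * W.ext a a = W.ext a a * swap E := by
  ext b c
  obtain ⟨⟨b1, b2⟩, rfl⟩ := (W.pr E E).surjective b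
  obtain ⟨⟨c1, c2⟩, rfl⟩ := (W.pr E E).surjective c
  rw [Matrix.mul_apply, Matrix.mul_apply, Finset.sum_eq_single (W.pr E E (b2, b1)),
    Finset.sum_eq_single (W.pr E E (c2, c1))]
  · unfold swap Weil.ext
    simp only [Matrix.of_apply, Equiv.symm_apply_apply, and_self, if_true]
    by_cases h1 : a b2 c1 = 0
    · rw [h1, zero_mul, mul_zero, mul_zero, zero_mul]
    · by_cases h2 : a b1 c2 = 0
      · rw [h2, mul_zero, mul_zero, zero_mul, zero_mul]
      · have h3 : W.deg E b2 = W.deg E c1 := by have := ha _ _ h1; omega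
        have h4 : W.deg E b1 = W.deg E c2 := by have := ha _ _ h2; omega
        rw [h3, h4]
        ring
  · intro d _ hd
    unfold swap
    simp only [Matrix.of_apply, Equiv.symm_apply_apply]
    rw [if_neg, mul_zero]
    rintro ⟨h1, h2⟩
    apply hd
    rw [← Equiv.apply_symm_apply (W.pr E E) d]
    exact congrArg _ (Prod.ext h1 h2)
  · intro h
    exact absurd (Finset.mem_univ _) h
  · intro d _ hd
    unfold swap
    simp only [Matrix.of_apply, Equiv.symm_apply_apply]
    rw [if_neg, zero_mul]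
    rintro ⟨h1, h2⟩
    apply hd
    rw [← Equiv.apply_symm_apply (W.pr E E) d]
    exact congrArg _ (Prod.ext h2.symm h1.symm)
  · intro h
    exact absurd (Finset.mem_univ _) h

theorem ext_pj_apply {n : ℕ} (E : W.Var n) (b a : Fin (W.rk (W.prod E E))) :
    W.ext (W.pj E 1) (W.pj E 1) b a = if b = a ∧ W.deg E ((W.pr E E).symm a).1 = 1 ∧
      W.deg E ((W.pr E E).symm a).2 = 1 then 1 else 0 := by
  unfold Weil.ext
  simp only [Matrix.of_apply]
  rw [H64.FT.pj_apply, H64.FT.pj_apply]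
  by_cases h : b = a
  · subst h
    simp only [if_true, true_and]
    by_cases h1 : W.deg E ((W.pr E E).symm b).1 = 1 <;>
      by_cases h2 : W.deg E ((W.pr E E).symm b).2 = 1 <;> simp [h1, h2]
  · have hr : (if b = a ∧ W.deg E ((W.pr E E).symm a).1 = 1 ∧
        W.deg E ((W.pr E E).symm a).2 = 1 then (1 : K) else 0) = 0 := if_neg (fun h1 => h h1.1)
    rw [hr]
    by_cases h1 : ((W.pr E E).symm b).1 = ((W.pr E E).symm a).1
    · have h2 : ((W.pr E E).symm b).2 ≠ ((W.pr E E).symm a).2 := fun h2 =>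
        h ((W.pr E E).symm.injective (Prod.ext h1 h2))
      rw [if_neg h2, mul_zero]
    · rw [if_neg h1, zero_mul]

theorem sym_eq {n : ℕ} (E : W.Var n) :
    sym E = ((1 / 2 : ℚ) : K) • ((1 - swap E) * W.ext (W.pj E 1) (W.pj E 1)) := rfl

theorem hasDeg_pj {n : ℕ} (X : W.Var n) (i : ℕ) : W.HasDeg 0 (W.pj X i) := by
  intro b a h
  rw [H64.FT.pj_apply] at h
  by_cases hba : b = a
  · rw [hba]; ring
  · rw [if_neg hba] at h
    exact absurd rfl h

/-- the entries of `sym` -/
theorem sym_ne_zero {n : ℕ} (E : W.Var n) {b a : Fin (W.rk (W.prod E E))} (h : sym E b a ≠ 0) :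
    (W.deg E ((W.pr E E).symm a).1 = 1 ∧ W.deg E ((W.pr E E).symm a).2 = 1) ∧
    (b = a ∨ ((W.pr E E).symm b).1 = ((W.pr E E).symm a).2 ∧
      ((W.pr E E).symm b).2 = ((W.pr E E).symm a).1) := by
  rw [sym_eq, Matrix.smul_apply, Matrix.mul_apply, Finset.sum_eq_single a] at h
  · rw [ext_pj_apply] at h
    have h1 : W.deg E ((W.pr E E).symm a).1 = 1 ∧ W.deg E ((W.pr E E).symm a).2 = 1 := by
      by_contra h2
      rw [if_neg (fun h3 => h2 h3.2), mul_zero, smul_zero] at h
      exact h rfl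
    refine ⟨h1, ?_⟩
    by_cases h2 : b = a
    · exact Or.inl h2
    · right
      by_contra h3
      rw [Matrix.sub_apply, Matrix.one_apply_ne h2, swap_apply, if_neg h3, sub_zero, zero_mul,
        smul_zero] at h
      exact h rfl
  · intro c _ hc
    rw [ext_pj_apply, if_neg (fun h3 => hc h3.1), mul_zero]
  · intro h
    exact absurd (Finset.mem_univ _) h

theorem sym_deg (hP : W.Products) {n : ℕ} (E : W.Var n) : W.HasDeg 0 (sym E) := by
  intro b a h
  obtain ⟨⟨h1, h2⟩, h3 | ⟨h3, h4⟩⟩ := sym_ne_zero E h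
  · rw [h3]; ring
  · have h5 := hP.deg_prod E E ((W.pr E E).symm b).1 ((W.pr E E).symm b).2
    have h6 := hP.deg_prod E E ((W.pr E E).symm a).1 ((W.pr E E).symm a).2
    rw [Prod.mk.eta, Equiv.apply_symm_apply] at h5 h6
    rw [h5, h6, h3, h4]
    push_cast
    ring

theorem sym_two (hP : W.Products) {n : ℕ} (E : W.Var n) (i : ℕ) (hi : i ≠ 2) :
    W.comp (sym E) (W.pj (W.prod E E) i) = 0 := by
  unfold Weil.comp
  ext b a
  rw [H64.FT.mul_pj_apply, Matrix.zero_apply]
  split_ifs with h1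
  · by_contra h
    obtain ⟨⟨h2, h3⟩, _⟩ := sym_ne_zero E h
    have h6 := hP.deg_prod E E ((W.pr E E).symm a).1 ((W.pr E E).symm a).2
    rw [Prod.mk.eta, Equiv.apply_symm_apply] at h6
    omega
  · rfl

/-- `sym` commutes with `a ⊗ a` -/
theorem sym_comm {n : ℕ} (E : W.Var n) (a : W.Hom E E) (ha : W.HasDeg 0 a) :
    W.ext a a * sym E = sym E * W.ext a a := by
  rw [sym_eq, Matrix.mul_smul, Matrix.smul_mul]
  congr 1
  have h1 : W.ext a a * (1 - swap E) = (1 - swap E) * W.ext a a := by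
    rw [mul_sub, sub_mul, mul_one, one_mul, swap_comm E a ha]
  rw [← Matrix.mul_assoc, h1, Matrix.mul_assoc, Matrix.mul_assoc, ext_mul, ext_mul,
    pj_comm0 ha 1]

theorem ite_key (P Q R T : Prop) [Decidable P] [Decidable Q] [Decidable R] [Decidable T] :
    ((if P ∧ Q then 1 else 0) - (if R ∧ T then -1 else 0) : K) =
      (if P then 1 else 0) * (if Q then 1 else 0) + (if R then 1 else 0) * (if T then 1 else 0) := by
  by_cases h1 : P <;> by_cases h2 : Q <;> by_cases h3 : R <;> by_cases h4 : T <;>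
    simp [h1, h2, h3, h4]

/-- the image of `sym` is the symmetric square -/
theorem sym_span {n : ℕ} (E : W.Var n) (y : W.H (W.prod E E)) :
    W.ap (sym E) y ∈ Submodule.span K
      {w | ∃ x, W.InH E 1 x ∧ ∃ x', W.InH E 1 x' ∧ w = tn x x' + tn x' x} := by
  have hsingle : ∀ i, W.deg E i = 1 → W.InH E 1 (Pi.single i 1) := by
    intro i hi a ha
    by_cases h : a = i
    · rw [h, hi]
    · rw [Pi.single_eq_of_ne h] at ha
      exact absurd rfl ha
  have hcol : ∀ a, W.ap (sym E) (Pi.single a 1) ∈ Submodule.span K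
      {w | ∃ x, W.InH E 1 x ∧ ∃ x', W.InH E 1 x' ∧ w = tn x x' + tn x' x} := by
    intro a
    obtain ⟨⟨i, j⟩, rfl⟩ := (W.pr E E).surjective a
    unfold Weil.ap
    rw [Matrix.mulVec_single_one]
    by_cases hd : W.deg E i = 1 ∧ W.deg E j = 1
    · have h1 : (sym E).col (W.pr E E (i, j)) = ((1 / 2 : ℚ) : K) •
          (tn (Pi.single i 1) (Pi.single j 1) + tn (Pi.single j 1) (Pi.single i 1)) := by
        ext b
        obtain ⟨⟨b1, b2⟩, rfl⟩ := (W.pr E E).surjective b
        rw [Matrix.col_apply, sym_eq, Matrix.smul_apply, Matrix.mul_apply,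
          Finset.sum_eq_single (W.pr E E (i, j))]
        · rw [ext_pj_apply, Matrix.sub_apply, swap_apply, Matrix.one_apply]
          unfold tn
          simp only [Equiv.symm_apply_apply, Pi.add_apply, Pi.smul_apply, Pi.single_apply,
            EmbeddingLike.apply_eq_iff_eq, Prod.mk.injEq, hd.1, hd.2, and_self, if_true, mul_one,
            pow_one, smul_eq_mul]
          congr 1
          exact ite_key _ _ _ _
        · intro c _ hc
          rw [ext_pj_apply, if_neg (fun h3 => hc h3.1), mul_zero]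
        · intro h
          exact absurd (Finset.mem_univ _) h
      rw [h1]
      exact Submodule.smul_mem _ _ (Submodule.subset_span
        ⟨_, hsingle i hd.1, _, hsingle j hd.2, rfl⟩)
    · have h1 : (sym E).col (W.pr E E (i, j)) = 0 := by
        ext b
        rw [Matrix.col_apply, Pi.zero_apply]
        by_contra h
        have := (sym_ne_zero E h).1
        rw [Equiv.symm_apply_apply] at this
        exact hd this
      rw [h1]
      exact Submodule.zero_mem _
  have h2 : y = ∑ a, y a • (Pi.single a 1 : W.H (W.prod E E)) := by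
    ext b
    rw [Finset.sum_apply, Finset.sum_eq_single b]
    · simp
    · intro c _ hc
      simp [Ne.symm hc]
    · intro h
      exact absurd (Finset.mem_univ _) h
  rw [h2]
  unfold Weil.ap
  rw [Matrix.mulVec_sum]
  refine Submodule.sum_mem _ fun a _ => ?_
  rw [Matrix.mulVec_smul]
  exact Submodule.smul_mem _ _ (hcol a)

theorem sym_dual {D : Duality W} {n : ℕ} {E : W.Var n} (hE : W.dim E = 1)
    (ht : ∀ a b : W.Hom E E, W.HasDeg 0 a → W.HasDeg 0 b →
      D.t (W.prod E E) (W.ext a b) = W.ext (D.t E a) (D.t E b))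
    (hs : D.t (W.prod E E) (swap E) = swap E) : D.t (W.prod E E) (sym E) = sym E := by
  have hlin := D.lin (W.prod E E)
  have hpj : D.t E (W.pj E 1) = W.pj E 1 := by rw [D.pj E 1 (by omega), hE]
  have h1 : D.t (W.prod E E) (1 - swap E) = 1 - swap E := by
    rw [sub_eq_add_neg, hlin.map_add, hlin.map_neg, hs]
    have := D.one (W.prod E E)
    unfold Weil.id at this
    rw [this]
  have h2 : D.t (W.prod E E) (W.ext (W.pj E 1) (W.pj E 1)) = W.ext (W.pj E 1) (W.pj E 1) := by
    rw [ht _ _ (hasDeg_pj E 1) (hasDeg_pj E 1), hpj]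
  rw [sym_eq, hlin.map_smul]
  congr 1
  have h3 := D.anti (W.prod E E) (W.ext (W.pj E 1) (W.pj E 1)) (1 - swap E)
  unfold Weil.comp at h3
  rw [h3, h1, h2, mul_sub, sub_mul, mul_one, one_mul, swap_comm E _ (hasDeg_pj E 1)]

/-- `1 - sym` factors through varieties of dimension at most `1` -/
theorem sym_through (hP : W.Products) (hW : W.Calculus) {n : ℕ} {E : W.Var n} (hE : W.C E)
    (hpt : W.id E - W.pj E 1 ∈ Through W (fun T => W.dim T = 0) E)
    (halt : W.comp (W.id _ + swap E) (W.ext (W.pj E 1) (W.pj E 1)) ∈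
      Through W (fun T => W.dim T = 0) (W.prod E E)) :
    W.id (W.prod E E) - sym E ∈ Through W (fun B => W.dim B = 0 ∨
      ∃ T, W.dim T = 0 ∧ (B = W.prod T E ∨ B = W.prod E T)) (W.prod E E) := by
  have e : W.id (W.prod E E) - sym E =
      W.ext (W.id E) (W.id E - W.pj E 1) + W.ext (W.id E - W.pj E 1) (W.pj E 1) +
      (1 / 2 : ℚ) • W.comp (W.id _ + swap E) (W.ext (W.pj E 1) (W.pj E 1)) := by
    have h1 : W.ext (W.id E) (W.id E) = W.ext (W.id E) (W.id E - W.pj E 1) +
        W.ext (W.id E) (W.pj E 1) := by rw [← ext_add_right, sub_add_cancel]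
    have h2 : W.ext (W.id E) (W.pj E 1) = W.ext (W.id E - W.pj E 1) (W.pj E 1) +
        W.ext (W.pj E 1) (W.pj E 1) := by rw [← ext_add_left, sub_add_cancel]
    rw [h2, ext_one, ← add_assoc] at h1
    obtain ⟨A, hA⟩ : ∃ A, A = W.ext (W.id E) (W.id E - W.pj E 1) := ⟨_, rfl⟩
    obtain ⟨B, hB⟩ : ∃ B, B = W.ext (W.id E - W.pj E 1) (W.pj E 1) := ⟨_, rfl⟩
    obtain ⟨P, hPP⟩ : ∃ P, P = W.ext (W.pj E 1) (W.pj E 1) := ⟨_, rfl⟩
    rw [← hA, ← hB, ← hPP] at h1
    rw [sym_eq, ← hA, ← hB, ← hPP]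
    unfold Weil.comp
    unfold Weil.id at h1 ⊢
    rw [add_mul, sub_mul, one_mul]
    ext b a
    have h4 := congrFun (congrFun h1 b) a
    rw [Matrix.add_apply, Matrix.add_apply] at h4
    rw [Matrix.sub_apply, h4]
    simp only [Matrix.add_apply, Matrix.sub_apply, Matrix.smul_apply, smul_eq_mul]
    rw [Rat.smul_def]
    push_cast
    ring
  rw [e]
  have h0 : ∀ Q : W.Var n → Prop, ∀ X : W.Var n, Through W Q X = Thru W Q X := fun _ _ => rfl
  refine add_mem (add_mem ?_ ?_) (Submodule.smul_mem _ _ ?_)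
  · rw [h0]
    exact thru_ext_right hP hW (fun T => W.dim T = 0) _
      (fun T hT => Or.inr ⟨T, hT, Or.inr rfl⟩) hpt
  · rw [h0]
    exact thru_ext_left hP hW (fun T => W.dim T = 0) _
      (fun T hT => Or.inr ⟨T, hT, Or.inl rfl⟩) hpt (hE 1)
  · refine Submodule.span_mono ?_ halt
    rintro f ⟨T, r, hT, h⟩
    exact ⟨T, r, Or.inl hT, h⟩

/-- **The data for `E × E × S`** -/
theorem EllipticSquare.surface (hP : W.Products) (hW : W.Calculus) {D : Duality W}
    (hK : Known W D) {𝓕 : Fibrations W} {n : ℕ} {E S : W.Var (n + 1)}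
    {mon : Set (W.Hom (W.prod (W.prod E E) S) (W.prod (W.prod E E) S))}
    (N : EllipticSquare W D 𝓕 E S mon) :
    Nonempty (SurfaceTimesCurve W D (W.prod E E) S mon (fun B => W.dim B = 0 ∨
      ∃ T, W.dim T = 0 ∧ (B = W.prod T E ∨ B = W.prod E T))) := by
  have hmulr : ∀ g h, W.ext (N.ρ (g * h)) (N.ρ (g * h)) =
      W.ext (N.ρ g) (N.ρ g) * W.ext (N.ρ h) (N.ρ h) := fun g h => by rw [ext_mul, map_mul]
  let ρA : N.π →* W.Hom (W.prod E E) (W.prod E E) :=
    { toFun := fun g => W.ext (N.ρ g) (N.ρ g)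
      map_one' := by rw [map_one]; exact ext_one E E
      map_mul' := hmulr }
  let M : H16.FT.SurfaceCurve W (W.prod E E) S :=
    { π := N.π
      ρA := ρA
      ρS := N.σ
      degA := fun g => ext_deg hP (N.degE g) (N.degE g)
      degS := N.degS
      place := N.place
      τ := N.τ
      unip := N.unip }
  refine ⟨{ M := M, G := N.G, r := sym E, dim_A := ?_, dim_S := N.dim_S, dual := ?_, mem := N.mem,
            point := N.pointS, dim_Q := ?_, r_through := ?_, r_deg := sym_deg hP E,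
            r_dual := sym_dual N.dim_E N.t_ext N.t_swap, r_two := sym_two hP E, r_inv := ?_,
            r_mon := ?_, maximal := ?_ }⟩
  · rw [hP.dim_prod, N.dim_E]
  · intro g
    show W.comp (D.t _ (W.ext (N.ρ g) (N.ρ g))) (W.ext (N.ρ g) (N.ρ g)) = _
    have h1 := N.dual g
    unfold Weil.comp at h1 ⊢
    rw [N.t_ext _ _ (N.degE g) (N.degE g), ext_mul, h1, ext_one]
  · rintro B (h | ⟨T, hT, rfl | rfl⟩)
    · omega
    · rw [hP.dim_prod, hT, N.dim_E]
    · rw [hP.dim_prod, hT, N.dim_E]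
  · exact sym_through hP hW (hK.surfaces E (by rw [N.dim_E]; norm_num)) N.pointE N.alt
  · intro g
    exact sym_comm E _ (N.degE g)
  · intro g hg
    obtain ⟨a, b, ha, hb, rfl⟩ := N.tensor g hg
    unfold Weil.comp
    rw [ext_mul, ext_mul, sym_comm E a ha, pj_comm0 hb 1]
  · exact maximal_square hP M N.ρ (fun _ => rfl) N.degE N.c₀ N.bad fun y _ => sym_span E y

/-- **Fourfolds with geometric generic fibre `E × E × S`**, where `E` is an elliptic curve with
non-constant `j`-invariant and `S` is any curve -/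
theorem covered_elliptic (hW : W.Calculus) (hP : W.Products) {D : Duality W} (hK : Known W D)
    {𝓕 : Fibrations W} (h𝓕 : 𝓕.Theory D) {n : ℕ} (X : W.Var n) (E S : W.Var (n + 1))
    (f : 𝓕.Fib X (W.prod (W.prod E E) S)) (N : EllipticSquare W D 𝓕 E S (𝓕.mon f)) :
    Covered D 𝓕 X := by
  obtain ⟨A⟩ := N.surface hP hW hK
  have hEE : ∀ Z, Nonempty (𝓕.Fib Z (W.prod E E)) → Covered D 𝓕 Z := by
    rintro Z ⟨g⟩
    obtain ⟨P, h1, h2, h3⟩ := N.pairE Z g
    exact covered_curves hK h𝓕 Z E E g P (by rw [h𝓕.dim_eq g, hP.dim_prod, N.dim_E]) h1 h2 h3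
  have hES : ∀ Z, Nonempty (𝓕.Fib Z (W.prod E S)) → Covered D 𝓕 Z := by
    rintro Z ⟨g⟩
    obtain ⟨P, h1, h2, h3⟩ := N.pairS Z g
    exact covered_curves hK h𝓕 Z E S g P (by rw [h𝓕.dim_eq g, hP.dim_prod, N.dim_E, N.dim_S])
      h1 h2 h3
  refine covered_four hW hP hK h𝓕 X _ S f _ A ?_ ?_
  · rintro T Z hT ⟨g⟩
    exact hEE Z (N.iso₁ T Z hT g)
  · rintro B Z (h | ⟨T, hT, rfl | rfl⟩) ⟨g⟩
    · refine Covered.small Z ?_
      rw [h𝓕.dim_eq g, hP.dim_prod, h, N.dim_S]
    · exact hES Z (N.iso₃ T Z hT g)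
    · exact hES Z (N.iso₂ T Z hT g)

end Pool.Agent.H90.FT
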