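import Pool.Agent.H90.FT.Square

/-!
# Fourfolds fibred over a curve with generic fibre the product of a surface and a curve
-/

set_option autoImplicit false

open Matrix

namespace Pool.Agent.H90.FT

open Pool.Agent.H64.CC Pool.Agent.H64.FT

variable {K : Type} [Field K] [CharZero K]

/-- Let `A` be a surface and `S` a curve over `F m`, `m = n + 1`, and let `mon` be the monodromy group
of a fibration with geometric generic fibre `A × S`, acting on `H(A × S)`.

* `M`: the representations of (a subgroup of finite index of) the monodromy group on `H(A)` and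
  `H(S)`; the group preserves the Poincaré duality on `A` (`dual`) and acts on `H(A × S)` by the
  tensor products;
* `G`: the Künneth formula and Poincaré duality for `A × S`; `point`: the projectors `pj₀` and `pj₂`
  of the curve `S` factor through a point;
* `r` is an algebraic and self-adjoint projector of `H(A)` onto a part of `H²(A)`, invariant under
  the monodromy, such that `1 - r` factors through curves `B` with the property `Q`. For example,
  let `r` be the projector onto the orthogonal complement of the classes of divisors, for any surface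
  `A` (Murre), or, for `A = E × E`, where `E` is an elliptic curve, the projector onto the symmetric
  square of `H¹(E)`, where the curves `B` are isomorphic to `E` or lines;
* `maximal`: `r H²(A)` is generated, as a representation of the monodromy group, by the images of
  the squares of the monodromy operators at the places of bad reduction. For `A = E × E` and an
  elliptic curve `E` with non-constant `j`-invariant this is `maximal_square`. -/
structure SurfaceTimesCurve (W : Weil K) (D : Duality W) {m : ℕ} (A S : W.Var m)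
    (mon : Set (W.Hom (W.prod A S) (W.prod A S))) (Q : W.Var m → Prop) where
  M : Pool.Agent.H16.FT.SurfaceCurve W A S
  G : Graph W D A S
  r : W.Hom A A
  dim_A : W.dim A = 2
  dim_S : W.dim S = 1
  dual : ∀ g, W.comp (D.t A (M.ρA g)) (M.ρA g) = W.id A
  mem : ∀ g, W.ext (M.ρA g) (M.ρS g) ∈ mon
  point : W.id S - W.pj S 1 ∈ Through W (fun T => W.dim T = 0) S
  dim_Q : ∀ B, Q B → W.dim B ≤ 1
  r_through : W.id A - r ∈ Through W Q A
  r_deg : W.HasDeg 0 r
  r_dual : D.t A r = r
  r_two : ∀ i, i ≠ 2 → W.comp r (W.pj A i) = 0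
  r_inv : ∀ g, W.comp (M.ρA g) r = W.comp r (M.ρA g)
  r_mon : ∀ g ∈ mon, W.comp g (W.ext r (W.pj S 1)) = W.comp (W.ext r (W.pj S 1)) g
  maximal : M.Maximal r

/-- **Fourfolds.** Let `X` be a fourfold with a fibration over a curve with geometric generic fibre
`A × S` as above. If all Künneth projectors of the threefolds fibred over curves with geometric
generic fibre `A × T`, `T` a point, or `B × S`, `Q B`, are algebraic, then all Künneth projectors of
`X` are algebraic. -/
theorem C_of_surface_curve {W : Weil K} {D : Duality W} (hW : W.Calculus) (hP : W.Products)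
    (hK : Known W D) {𝓕 : Fibrations W} (h𝓕 : 𝓕.Theory D) {n : ℕ} {X : W.Var n}
    {A S : W.Var (n + 1)} (f : 𝓕.Fib X (W.prod A S)) {Q : W.Var (n + 1) → Prop}
    (N : SurfaceTimesCurve W D A S (𝓕.mon f) Q)
    (h₁ : ∀ T Z, W.dim T = 0 → Nonempty (𝓕.Fib Z (W.prod A T)) → W.C Z)
    (h₂ : ∀ B Z, Q B → Nonempty (𝓕.Fib Z (W.prod B S)) → W.C Z) : W.C X := by
  have hdimY : W.dim (W.prod A S) = 3 := by rw [hP.dim_prod, N.dim_A, N.dim_S]
  have hdimX := h𝓕.dim_eq f
  obtain ⟨k1, k2, k3, k4⟩ := prod_key hP D N.M N.G N.dim_S N.dual N.r_deg N.r_dual N.r_two N.r_inv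
    N.maximal
  refine C_of_fibration hW hK h𝓕 f (by omega)
    (P := fun Z => (∃ B, Q B ∧ Z = W.prod B S) ∨ ∃ T, W.dim T = 0 ∧ Z = W.prod A T) ?_ ?_
    (e := W.id _ - W.ext N.r (W.pj S 1)) ?_ k1 ?_ ?_ ?_
  · rintro Z (⟨B, hB, rfl⟩ | ⟨T, hT, rfl⟩)
    · have := N.dim_Q B hB
      rw [hP.dim_prod, N.dim_S]
      omega
    · rw [hP.dim_prod, N.dim_A, hT]
  · rintro Z (⟨B, hB, rfl⟩ | ⟨T, hT, rfl⟩) Z' hZ'
    · exact h₂ B Z' hB hZ'
    · exact h₁ T Z' hT hZ'
  · exact prod_key_mem hP hW Q (fun T => W.dim T = 0) _ (fun B hB => Or.inl ⟨B, hB, rfl⟩)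
      (fun T hT => Or.inr ⟨T, hT, rfl⟩) N.r_through N.point
      (hK.surfaces S (by rw [N.dim_S]; norm_num) 1)
  · intro g hg
    have h1 := N.r_mon g hg
    unfold Weil.comp at h1 ⊢
    unfold Weil.id
    rw [mul_sub, sub_mul, one_mul, mul_one, h1]
  · intro i hi
    exact k3 i (by omega)
  · intro y _ hy
    exact k4 y fun g => hy _ (N.mem g)

end Pool.Agent.H90.FT
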